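import Pool.Agent.H41.TF.Sb

/-!
# Project TF: part INN
-/

set_option autoImplicit false
set_option linter.unusedSimpArgs false

namespace Pool.Agent.H41.TF

open Pool.Agent.H74.TF Finset Equiv MvPolynomial

lemma cyc_inv {α : Type} [Fintype α] [DecidableEq α] (g : Perm α) : cyc g⁻¹ = cyc g := by
  unfold cyc
  rw [Equiv.Perm.parts_partition, Equiv.Perm.parts_partition, Equiv.Perm.cycleType_inv,
    Equiv.Perm.support_inv]

lemma cyc_conj {α : Type} [Fintype α] [DecidableEq α] (g a : Perm α) :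
    cyc (a * g * a⁻¹) = cyc g := by
  unfold cyc
  rw [Equiv.Perm.parts_partition, Equiv.Perm.parts_partition, Equiv.Perm.cycleType_conj,
    Equiv.Perm.card_support_conj]

lemma sum_conj {α V : Type} [Fintype α] [DecidableEq α] [AddCommMonoid V] (j : ℕ)
    (a : Perm α) (f : Perm α → V) :
    ∑ s : Perm α with cyc s + j = Fintype.card α, f (a * s * a⁻¹) =
      ∑ s : Perm α with cyc s + j = Fintype.card α, f s := by
  refine sum_nbij' (fun s => a * s * a⁻¹) (fun s => a⁻¹ * s * a) ?_ ?_ ?_ ?_ ?_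
  · intro s hs
    rw [Finset.mem_filter] at hs ⊢
    exact ⟨Finset.mem_univ _, by rw [cyc_conj]; exact hs.2⟩
  · intro s hs
    rw [Finset.mem_filter] at hs ⊢
    refine ⟨Finset.mem_univ _, ?_⟩
    have := cyc_conj s a⁻¹
    rw [inv_inv] at this
    rw [this]
    exact hs.2
  · intro s _
    group
  · intro s _
    group
  · intro s _
    rfl

lemma sum_inv {α V : Type} [Fintype α] [DecidableEq α] [AddCommMonoid V] (j : ℕ)
    (f : Perm α → V) :
    ∑ s : Perm α with cyc s + j = Fintype.card α, f s⁻¹ =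
      ∑ s : Perm α with cyc s + j = Fintype.card α, f s := by
  refine sum_nbij' (fun s => s⁻¹) (fun s => s⁻¹) ?_ ?_ ?_ ?_ ?_
  · intro s hs
    rw [Finset.mem_filter] at hs ⊢
    exact ⟨Finset.mem_univ _, by rw [cyc_inv]; exact hs.2⟩
  · intro s hs
    rw [Finset.mem_filter] at hs ⊢
    exact ⟨Finset.mem_univ _, by rw [cyc_inv]; exact hs.2⟩
  · intro s _
    exact inv_inv s
  · intro s _
    exact inv_inv s
  · intro s _
    rfl

lemma iot_mul {m k : ℕ} (a a' : Perm (Fin m × Bool)) (b b' : Perm (Fin k)) :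
    (iot a b * iot a' b' : Perm (Pt m k)) = iot (a * a') (b * b') := by
  rw [Equiv.Perm.sumCongr_mul]

lemma iot_inv {m k : ℕ} (a : Perm (Fin m × Bool)) (b : Perm (Fin k)) :
    (iot a b : Perm (Pt m k))⁻¹ = iot a⁻¹ b⁻¹ := by
  rw [Equiv.Perm.sumCongr_inv]

/-- Left translations by `iot a 1`. -/
noncomputable def rho' (R : Type) [CommRing R] (m k : ℕ) :
    Representation R (Perm (Fin m × Bool)) (Perm (Pt m k) → R) :=
  (LL R m k).comp
    { toFun := fun a => iot a 1
      map_one' := by simp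
      map_mul' := fun a b => by rw [iot_mul, one_mul] }

lemma rho'_apply (R : Type) [CommRing R] (m k : ℕ) (a : Perm (Fin m × Bool)) :
    rho' R m k a = LL R m k (iot a 1) := rfl

lemma JM_rho' (R : Type) [CommRing R] (m k : ℕ) (x : Fin m × Bool) :
    JM (rho' R m k) (fun y => rk (Sum.inl y : Pt m k)) x = JJ R m k (Sum.inl x) := by
  unfold JJ JM
  symm
  refine (sum_nbij (fun y => (Sum.inl y : Pt m k)) ?_ ?_ ?_ ?_).symm
  · intro y hy
    rw [Finset.mem_filter] at hy ⊢
    exact ⟨Finset.mem_univ _, hy.2⟩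
  · intro y _ y' _ h
    exact Sum.inl.inj h
  · rintro (y | r) hy
    · rw [Finset.coe_filter] at hy
      exact ⟨y, by rw [Finset.coe_filter]; exact ⟨Finset.mem_univ _, hy.2⟩, rfl⟩
    · rw [Finset.coe_filter] at hy
      have h2 : rk (Sum.inr r : Pt m k) < rk (Sum.inl x : Pt m k) := hy.2
      rcases x with ⟨i, b⟩
      simp only [rk] at h2
      have := i.2
      cases b <;> simp at h2 <;> omega
  · intro y _
    rw [rho'_apply, iot_swap]

lemma v0_range (h : C_V0) (R : Type) [CommRing R] (m k : ℕ) (g : Perm (Pt m k))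
    (hg : ¬ ∃ a b, g = iot a b) : v0 R m k g = 0 :=
  (h.2.2 R m k).2.1 g (fun ⟨a, b, _, hab⟩ => hg ⟨a, b, hab⟩)

lemma RJ_v0 (h : C_V0) (R : Type) [CommRing R] (m k j : ℕ) :
    RJ R m k j (v0 R m k) = csum (rho' R m k) j (v0 R m k) := by
  funext g
  have h1 : RJ R m k j (v0 R m k) g =
    ∑ s : Perm (Fin m × Bool) with cyc s + j = Fintype.card (Fin m × Bool),
      v0 R m k (g * iot s 1) := rfl
  have h2 : csum (rho' R m k) j (v0 R m k) g =
    ∑ s : Perm (Fin m × Bool) with cyc s + j = Fintype.card (Fin m × Bool),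
      v0 R m k (iot s 1 * g) := by
    unfold csum
    rw [LinearMap.sum_apply, Finset.sum_apply]
    have h3 := sum_inv j (fun s : Perm (Fin m × Bool) => v0 R m k (iot s 1 * g))
    rw [← h3]
    refine sum_congr rfl fun s _ => ?_
    rw [rho'_apply]
    show v0 R m k ((iot s 1)⁻¹ * g) = _
    rw [iot_inv, inv_one]
  rw [h1, h2]
  by_cases hg : ∃ a b, g = iot a b
  · obtain ⟨c, b, rfl⟩ := hg
    have h3 := sum_conj j c (fun s : Perm (Fin m × Bool) => v0 R m k (iot s 1 * iot c b))
    rw [← h3]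
    refine sum_congr rfl fun s _ => ?_
    rw [iot_mul, iot_mul]
    congr 2
    · group
  · rw [sum_eq_zero, sum_eq_zero]
    · intro s _
      refine v0_range h R m k _ ?_
      rintro ⟨a, b, hab⟩
      refine hg ⟨s⁻¹ * a, b, ?_⟩
      have : g = (iot s 1)⁻¹ * iot a b := by
        rw [← hab]
        group
      rw [this, iot_inv, iot_mul, inv_one, one_mul]
    · intro s _
      refine v0_range h R m k _ ?_
      rintro ⟨a, b, hab⟩
      refine hg ⟨a * s⁻¹, b, ?_⟩
      have : g = iot a b * (iot s 1)⁻¹ := by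
        rw [← hab]
        group
      rw [this, iot_inv, iot_mul, inv_one, mul_one]

theorem t_INN (hE : C_EV) (hC : C_COM) (hJ : C_JUC) (hR : C_REL) (hV : C_V0) : C_INN := by
  intro R _ m k evs hs
  refine ⟨?_, ?_, ?_, ?_⟩
  · intro j
    obtain ⟨ev, hev⟩ := exists_ev hE hC R m k
    have h1 := hJ R (Fin m × Bool) _ (rho' R m k) (fun y => rk (Sum.inl y : Pt m k))
      (ev.comp (rename Sum.inl)) (fun y y' h => Sum.inl.inj (rk_inj m k h)) (fun x => by
        rw [AlgHom.comp_apply, rename_X, hev, JM_rho']) j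
    rw [RJ_v0 hV, h1, AlgHom.comp_apply, t_SB hC hR R m k ev evs hev hs, aeval_rename]
    rfl
  · intro j g ψ
    funext x
    show ∑ s : Perm (Fin m × Bool) with cyc s + j = Fintype.card (Fin m × Bool),
      ψ (g⁻¹ * (x * iot s 1)) = ∑ s : Perm (Fin m × Bool) with
        cyc s + j = Fintype.card (Fin m × Bool), ψ (g⁻¹ * x * iot s 1)
    refine sum_congr rfl fun s _ => ?_
    rw [mul_assoc]
  · intro j ψ hψ g a b ha
    show ∑ s : Perm (Fin m × Bool) with cyc s + j = Fintype.card (Fin m × Bool),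
      ψ (g * iot a b * iot s 1) = sg b • ∑ s : Perm (Fin m × Bool) with
        cyc s + j = Fintype.card (Fin m × Bool), ψ (g * iot s 1)
    rw [smul_sum, ← sum_conj j a (fun s : Perm (Fin m × Bool) => sg b • ψ (g * iot s 1))]
    refine sum_congr rfl fun s _ => ?_
    rw [← hψ (g * iot (a * s * a⁻¹) 1) a b ha]
    congr 1
    rw [mul_assoc, mul_assoc, iot_mul, iot_mul]
    congr 2
    · group
  · intro j g
    show csum (LL R m k) j * LL R m k g = LL R m k g * csum (LL R m k) j
    unfold csum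
    rw [sum_mul, mul_sum, ← sum_conj j g (fun s : Perm (Pt m k) => LL R m k s * LL R m k g)]
    refine sum_congr rfl fun s _ => ?_
    rw [← map_mul, ← map_mul]
    congr 1
    group

end Pool.Agent.H41.TF
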