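import Pool.Agent.H74.TF.Stm

/-!
# Project TF: part REL
-/

set_option autoImplicit false
set_option linter.unusedSimpArgs false

namespace Pool.Agent.H41.TF

open Pool.Agent.H74.TF Finset Equiv MvPolynomial

lemma JJ_apply (R : Type) [CommRing R] (m k : ℕ) (x : Pt m k) (ψ : Perm (Pt m k) → R)
    (g : Perm (Pt m k)) :
    JJ R m k x ψ g = ∑ y : Pt m k with rk y < rk x, ψ (swap y x * g) := by
  simp [JM, lt, LinearMap.sum_apply, Finset.sum_apply]

lemma iot_swap {m k : ℕ} (x y : Fin m × Bool) :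
    (swap (Sum.inl x) (Sum.inl y) : Perm (Pt m k)) = iot (swap x y) 1 := by
  exact (Equiv.Perm.sumCongr_swap_one x y).symm

/-- Left invariance of `v0` under `S_2 ≀ S_m`. -/
lemma v0_left (h : C_V0) (R : Type) [CommRing R] (m k : ℕ) (a : Perm (Fin m × Bool)) (ha : wr a)
    (g : Perm (Pt m k)) : v0 R m k (iot a 1 * g) = v0 R m k g := by
  have h1 := (((h.2.2 R m k).2.2.1 : v0 R m k ∈ SE R m k) g a 1 ha).2
  simpa [sg] using h1

lemma wr_swap {m : ℕ} (i : Fin m) : wr (swap ((i, false) : Fin m × Bool) (i, true)) := by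
  intro l
  by_cases hl : l = i
  · subst hl
    simp
  · rw [swap_apply_of_ne_of_ne, swap_apply_of_ne_of_ne] <;> simp [hl]

lemma wr_swap2 {m : ℕ} (i j : Fin m) (hij : j ≠ i) (b : Bool) :
    wr (swap ((j, !b) : Fin m × Bool) (i, false) * swap ((j, b) : Fin m × Bool) (i, true)) := by
  intro l
  by_cases hl : l = i
  · subst hl
    cases b <;> simp [swap_apply_def, hij, Ne.symm hij]
  · by_cases hl2 : l = j
    · subst hl2
      cases b <;> simp [swap_apply_def, hij, Ne.symm hij]
    · simp [swap_apply_def, hl, hl2]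

lemma v0_pair (h : C_V0) (R : Type) [CommRing R] (m k : ℕ) (i j : Fin m) (hij : j ≠ i) (b : Bool)
    (g : Perm (Pt m k)) :
    v0 R m k (swap (Sum.inl (j, b)) (Sum.inl (i, true)) * g) =
      v0 R m k (swap (Sum.inl (j, !b)) (Sum.inl (i, false)) * g) := by
  have h1 := v0_left h R m k _ (wr_swap2 i j hij b)
    (swap (Sum.inl (j, b)) (Sum.inl (i, true)) * g)
  rw [← h1]
  congr 1
  rw [iot_swap, iot_swap]
  have h2 : (iot (swap ((j, !b) : Fin m × Bool) (i, false) *
      swap ((j, b) : Fin m × Bool) (i, true)) 1 : Perm (Pt m k)) =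
      iot (swap ((j, !b) : Fin m × Bool) (i, false)) 1 *
        iot (swap ((j, b) : Fin m × Bool) (i, true)) 1 := by
    rw [Equiv.Perm.sumCongr_mul]
    simp
  rw [h2, mul_assoc, ← mul_assoc (iot (swap ((j, b) : Fin m × Bool) (i, true)) 1),
    Equiv.Perm.sumCongr_mul]
  simp

lemma rk_lt1 {m k : ℕ} (i : Fin m) (y : Pt m k) :
    rk y < rk (Sum.inl (i, true) : Pt m k) ↔
      y = Sum.inl (i, false) ∨ rk y < rk (Sum.inl (i, false) : Pt m k) := by
  rcases y with ⟨j, b⟩ | r
  · simp only [rk, Sum.inl.injEq, Prod.mk.injEq, Fin.ext_iff]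
    cases b
    · simp only [Bool.toNat_false, Bool.toNat_true, and_true]
      omega
    · simp only [Bool.toNat_false, Bool.toNat_true, Bool.true_eq_false, and_false, false_or]
      omega
  · simp only [rk, Bool.toNat_false, Bool.toNat_true, reduceCtorEq, false_or]
    have := i.2
    omega

lemma rk_lt0 {m k : ℕ} (i : Fin m) (y : Pt m k) (hy : rk y < rk (Sum.inl (i, false) : Pt m k)) :
    ∃ j b, j ≠ i ∧ y = Sum.inl (j, b) ∧ rk (dl m k y) < rk (Sum.inl (i, false) : Pt m k) ∧
      dl m k y = Sum.inl (j, !b) := by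
  rcases y with ⟨j, b⟩ | r
  · simp only [rk, Bool.toNat_false] at hy
    refine ⟨j, b, ?_, rfl, ?_, rfl⟩
    · rintro rfl
      omega
    · show 2 * (j : ℕ) + (!b).toNat < 2 * (i : ℕ) + false.toNat
      cases b <;> simp at hy ⊢ <;> omega
  · simp only [rk, Bool.toNat_false] at hy
    have := i.2
    omega

lemma dl_dl (m k : ℕ) (y : Pt m k) : dl m k (dl m k y) = y := by
  rcases y with ⟨j, b⟩ | r <;> simp [dl]

theorem t_REL (h : C_V0) : C_REL := by
  intro R _ m k i
  funext g
  rw [Pi.add_apply, JJ_apply, JJ_apply]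
  have hset : (univ.filter fun y : Pt m k => rk y < rk (Sum.inl (i, true) : Pt m k)) =
      insert (Sum.inl (i, false)) (univ.filter fun y : Pt m k =>
        rk y < rk (Sum.inl (i, false) : Pt m k)) := by
    ext y
    rw [Finset.mem_insert, Finset.mem_filter, Finset.mem_filter, rk_lt1]
    simp
  rw [hset, sum_insert (by simp)]
  have h0 : v0 R m k (swap (Sum.inl (i, false)) (Sum.inl (i, true)) * g) = v0 R m k g := by
    rw [iot_swap]
    exact v0_left h R m k _ (wr_swap i) g
  rw [h0, add_comm]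
  congr 1
  refine sum_nbij' (fun y => dl m k y) (fun y => dl m k y) ?_ ?_ ?_ ?_ ?_
  · intro y hy
    rw [Finset.mem_filter] at hy ⊢
    obtain ⟨j, b, h1, h2, h3, h4⟩ := rk_lt0 i y hy.2
    exact ⟨Finset.mem_univ _, h3⟩
  · intro y hy
    rw [Finset.mem_filter] at hy ⊢
    obtain ⟨j, b, h1, h2, h3, h4⟩ := rk_lt0 i y hy.2
    exact ⟨Finset.mem_univ _, h3⟩
  · intro y hy
    exact dl_dl m k y
  · intro y hy
    exact dl_dl m k y
  · intro y hy
    rw [Finset.mem_filter] at hy
    obtain ⟨j, b, h1, h2, h3, h4⟩ := rk_lt0 i y hy.2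
    rw [h4, h2]
    exact v0_pair h R m k i j h1 b g

end Pool.Agent.H41.TF
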