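import Pool.Agent.H41.TF.Rel

/-!
# Project TF: parts SB and OUT
-/

set_option autoImplicit false
set_option linter.unusedSimpArgs false

namespace Pool.Agent.H41.TF

open Pool.Agent.H74.TF Finset Equiv MvPolynomial

lemma rk_inj (m k : ℕ) : Function.Injective (rk : Pt m k → ℕ) := by
  rintro (⟨i, b⟩ | r) (⟨i', b'⟩ | r') h
  · simp only [rk] at h
    have : (i : ℕ) = i' ∧ b = b' := by
      cases b <;> cases b' <;> simp at h ⊢ <;> omega
    rw [Fin.ext this.1, this.2]
  · simp only [rk] at h
    have := i.2
    cases b <;> simp at h <;> omega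
  · simp only [rk] at h
    have := i'.2
    cases b' <;> simp at h <;> omega
  · simp only [rk] at h
    have : r = r' := Fin.ext (by omega)
    rw [this]

lemma JJ_comm (hC : C_COM) (R : Type) [CommRing R] (m k : ℕ) (x y : Pt m k) :
    Commute (JJ R m k x) (JJ R m k y) :=
  (hC R (Pt m k) (Perm (Pt m k) → R) (LL R m k) rk (rk_inj m k)).1 x y

/-- Images of generators commute, then all images commute. -/
lemma commute_of_gen {R A σ τ : Type} [CommRing R] [Ring A] [Algebra R A]
    (E : MvPolynomial σ R →ₐ[R] A) (E' : MvPolynomial τ R →ₐ[R] A)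
    (h : ∀ x y, Commute (E (X x)) (E' (X y))) (f : MvPolynomial σ R) (f' : MvPolynomial τ R) :
    Commute (E f) (E' f') := by
  have h1 : ∀ x, Commute (E (X x)) (E' f') := by
    intro x
    induction f' using MvPolynomial.induction_on with
    | C a =>
      rw [show (C a : MvPolynomial τ R) = algebraMap R _ a from rfl, AlgHom.commutes]
      exact (Algebra.commutes a _).symm
    | add p q hp hq =>
      rw [map_add]
      exact hp.add_right hq
    | mul_X p y hp =>
      rw [map_mul]
      exact hp.mul_right (h x y)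
  induction f using MvPolynomial.induction_on with
  | C a =>
    rw [show (C a : MvPolynomial σ R) = algebraMap R _ a from rfl, AlgHom.commutes]
    exact Algebra.commutes a _
  | add p q hp hq =>
    rw [map_add]
    exact hp.add_left hq
  | mul_X p y hp =>
    rw [map_mul]
    exact hp.mul_left (h1 y)

lemma JJ_v0 (hR : C_REL) {R : Type} [CommRing R] {m k : ℕ}
    (evs : MvPolynomial (Fin m ⊕ Fin k) R →ₐ[R] Module.End R (Perm (Pt m k) → R))
    (hs : IsEv evs) (x : Pt m k) : JJ R m k x (v0 R m k) = evs (s2 R m k x) (v0 R m k) := by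
  rcases x with ⟨i, b⟩ | r
  · cases b
    · have h1 : s2 R m k (Sum.inl (i, false)) = X (Sum.inl i) := by
        simp [s2, s1]
      rw [h1, hs]
      rfl
    · have h1 : s2 R m k (Sum.inl (i, true)) = X (Sum.inl i) + 1 := by
        simp [s2, s1]
      rw [h1, map_add, hs, map_one, hR, LinearMap.add_apply]
      rfl
  · have h1 : s2 R m k (Sum.inr r) = X (Sum.inr r) := rfl
    rw [h1, hs]
    rfl

theorem t_SB (hC : C_COM) (hR : C_REL) : C_SB := by
  intro R _ m k ev evs hev hs f
  have hc : ∀ f h, Commute (ev f) (evs h) := commute_of_gen ev evs (fun x y => by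
    rw [hev, hs]
    exact JJ_comm hC R m k _ _)
  induction f using MvPolynomial.induction_on with
  | C a =>
    rw [show (C a : MvPolynomial (Pt m k) R) = algebraMap R _ a from rfl, AlgHom.commutes,
      AlgHom.commutes, AlgHom.commutes]
  | add p q hp hq =>
    rw [map_add, map_add, map_add, LinearMap.add_apply, LinearMap.add_apply, hp, hq]
  | mul_X p x hp =>
    rw [map_mul, map_mul, aeval_X, mul_comm (aeval (s2 R m k) p), map_mul, Module.End.mul_apply,
      Module.End.mul_apply, hev, JJ_v0 hR evs hs x, ← hp, ← Module.End.mul_apply,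
      ← Module.End.mul_apply, (hc p (s2 R m k x)).eq]

/-- An evaluation homomorphism at all Jucys-Murphy operators. -/
lemma exists_ev (hE : C_EV) (hC : C_COM) (R : Type) [CommRing R] (m k : ℕ) :
    ∃ ev : MvPolynomial (Pt m k) R →ₐ[R] Module.End R (Perm (Pt m k) → R),
      ∀ x, ev (X x) = JJ R m k x :=
  hE R _ _ (JJ R m k) (JJ_comm hC R m k)

theorem t_OUT (hE : C_EV) (hC : C_COM) (hJ : C_JUC) (hS : C_SB) : C_OUT := by
  intro R _ m k evs hs j
  obtain ⟨ev, hev⟩ := exists_ev hE hC R m k
  rw [← hS R m k ev evs hev hs, hJ R (Pt m k) _ (LL R m k) rk ev (rk_inj m k) hev j]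

end Pool.Agent.H41.TF
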